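import Mathlib
import Pool.Agent.Helper56.TOF.Goals

/-! # Project TOF, packet HO2: the phases are holomorphic -/

set_option autoImplicit false

open Set Filter Topology MeasureTheory

namespace Pool.Agent.Helper26.TOF

open Pool.Agent.Helper56.RZ Pool.Agent.Helper30.CIR Pool.Agent.Helper56.TOF

/-- the exponential factor -/
noncomputable def ex (q : ℕ) (lam : ℝ) (z : ℂ) : ℂ :=
  Complex.exp (-((2 * Real.pi * q * lam : ℝ) : ℂ) * z * Complex.I)

/-- the holomorphic phases -/
noncomputable def W (q : ℕ) (a c : ℕ → ℝ) : ℕ → ℂ → ℂ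
  | 0, z => ex q (a 0) z
  | i + 1, z => ex q (a (i + 1) - a i) z *
      ((W q a c i z + c i) / (1 + (c i : ℂ) * W q a c i z))

theorem norm_ex (q : ℕ) (lam : ℝ) (z : ℂ) :
    ‖ex q lam z‖ = Real.exp (2 * Real.pi * q * lam * z.im) := by
  unfold ex
  rw [Complex.norm_exp]
  congr 1
  simp only [Complex.mul_re, Complex.mul_im, Complex.neg_re, Complex.neg_im, Complex.ofReal_re,
    Complex.ofReal_im, Complex.I_re, Complex.I_im]
  ring

theorem ex_real (q : ℕ) (lam al : ℝ) : ex q lam (al : ℂ) = ee (-(q * (al * lam))) := by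
  unfold ex ee
  congr 1
  push_cast
  ring

theorem ee_add (s t : ℝ) : ee (s + t) = ee s * ee t := by
  unfold ee
  rw [← Complex.exp_add]
  congr 1
  push_cast
  ring

theorem norm_ee (t : ℝ) : ‖ee t‖ = 1 := by
  unfold ee
  exact Complex.norm_exp_ofReal_mul_I _

theorem moebius {w : ℂ} {c : ℝ} (hw : ‖w‖ ≤ 1) (h0 : 0 ≤ c) (h1 : c ≤ 1 / 10) :
    ‖(w + c) / (1 + (c : ℂ) * w)‖ ≤ 1 := by
  rw [norm_div]
  refine div_le_one_of_le₀ ?_ (norm_nonneg _)
  refine (sq_le_sq₀ (norm_nonneg _) (norm_nonneg _)).1 ?_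
  rw [← Complex.normSq_eq_norm_sq, ← Complex.normSq_eq_norm_sq, Complex.normSq_apply,
    Complex.normSq_apply]
  have h2 : w.re * w.re + w.im * w.im ≤ 1 := by
    rw [← Complex.normSq_apply, Complex.normSq_eq_norm_sq]
    exact pow_le_one₀ (norm_nonneg _) hw
  simp only [Complex.add_re, Complex.add_im, Complex.ofReal_re, Complex.ofReal_im,
    Complex.one_re, Complex.one_im, Complex.mul_re, Complex.mul_im]
  have h3 : c ^ 2 ≤ 1 := by nlinarith
  nlinarith [mul_nonneg (sub_nonneg.2 h3) (sub_nonneg.2 h2)]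

theorem norm_cw {w : ℂ} {c : ℝ} (hw : ‖w‖ ≤ 1) (h0 : 0 ≤ c) (h1 : c ≤ 1 / 10) :
    ‖(c : ℂ) * w‖ ≤ 1 / 2 := by
  rw [norm_mul, Complex.norm_real, Real.norm_of_nonneg h0]
  nlinarith [norm_nonneg w]

theorem re_pos {v : ℂ} (hv : ‖v‖ ≤ 1 / 2) : 0 < (1 + v).re := by
  have h1 : |v.re| ≤ 1 / 2 := (Complex.abs_re_le_norm v).trans hv
  have h2 := (abs_le.1 h1).1
  simp only [Complex.add_re, Complex.one_re]
  linarith

theorem ne_zero {v : ℂ} (hv : ‖v‖ ≤ 1 / 2) : 1 + v ≠ 0 := by
  intro h
  have := re_pos hv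
  rw [h] at this
  simp at this

section

variable {q : ℕ} {a c : ℕ → ℝ} {c0 : ℝ} (ha0 : 3 ≤ a 0) (ha : ∀ i, a i + 7 ≤ a (i + 1))
  (hc : ∀ i, 0 ≤ c i ∧ c i ≤ c0) (hc0 : c0 ≤ 1 / 10)

include ha0 ha hc hc0

theorem W_bound (i : ℕ) (z : ℂ) (hz : z.im ≤ 0) :
    ‖W q a c i z‖ ≤ Real.exp (6 * Real.pi * q * z.im) := by
  have hlam : ∀ lam : ℝ, 3 ≤ lam → Real.exp (2 * Real.pi * q * lam * z.im) ≤
      Real.exp (6 * Real.pi * q * z.im) := by
    intro lam hl
    apply Real.exp_le_exp.2
    have h1 : 0 ≤ Real.pi * q * (-z.im) :=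
      mul_nonneg (mul_nonneg Real.pi_pos.le (Nat.cast_nonneg q)) (by linarith)
    nlinarith
  induction i with
  | zero =>
    rw [W, norm_ex]
    exact hlam _ ha0
  | succ i ih =>
    rw [W, norm_mul, norm_ex]
    have h1 : ‖W q a c i z‖ ≤ 1 := ih.trans (Real.exp_le_one_iff.2 (by
      have h1 : 0 ≤ Real.pi * q * (-z.im) :=
        mul_nonneg (mul_nonneg Real.pi_pos.le (Nat.cast_nonneg q)) (by linarith)
      nlinarith))
    have h2 := moebius h1 (hc i).1 ((hc i).2.trans hc0)
    calc Real.exp (2 * Real.pi * q * (a (i + 1) - a i) * z.im) *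
          ‖(W q a c i z + c i) / (1 + (c i : ℂ) * W q a c i z)‖
        ≤ Real.exp (2 * Real.pi * q * (a (i + 1) - a i) * z.im) * 1 :=
          mul_le_mul_of_nonneg_left h2 (Real.exp_pos _).le
      _ ≤ _ := by
          rw [mul_one]
          exact hlam _ (by linarith [ha i])

theorem W_le_one (i : ℕ) (z : ℂ) (hz : z.im ≤ 0) : ‖W q a c i z‖ ≤ 1 := by
  refine (W_bound ha0 ha hc hc0 i z hz).trans (Real.exp_le_one_iff.2 ?_)
  have h1 : 0 ≤ Real.pi * q * (-z.im) :=
    mul_nonneg (mul_nonneg Real.pi_pos.le (Nat.cast_nonneg q)) (by linarith)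
  nlinarith

theorem cW_le (i : ℕ) (z : ℂ) (hz : z.im ≤ 0) : ‖(c i : ℂ) * W q a c i z‖ ≤ 1 / 2 :=
  norm_cw (W_le_one ha0 ha hc hc0 i z hz) (hc i).1 ((hc i).2.trans hc0)

omit ha0 ha hc hc0 in
theorem ex_cont (lam : ℝ) : Continuous (ex q lam) := by
  unfold ex
  fun_prop

omit ha0 ha hc hc0 in
theorem ex_diff (lam : ℝ) : Differentiable ℂ (ex q lam) := by
  unfold ex
  fun_prop

theorem W_cont (i : ℕ) : ContinuousOn (W q a c i) {z | z.im ≤ 0} := by
  induction i with
  | zero => exact (ex_cont (a 0)).continuousOn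
  | succ i ih =>
    have h1 : ContinuousOn (fun z => ex q (a (i + 1) - a i) z *
        ((W q a c i z + c i) / (1 + (c i : ℂ) * W q a c i z))) {z | z.im ≤ 0} := by
      refine (ex_cont _).continuousOn.mul (ContinuousOn.div (ih.add continuousOn_const)
        (continuousOn_const.add (continuousOn_const.mul ih)) fun z hz => ?_)
      exact ne_zero (cW_le ha0 ha hc hc0 i z hz)
    exact h1

theorem W_diff (i : ℕ) : DifferentiableOn ℂ (W q a c i) {z | z.im < 0} := by
  induction i with
  | zero => exact (ex_diff (a 0)).differentiableOn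
  | succ i ih =>
    have h1 : DifferentiableOn ℂ (fun z => ex q (a (i + 1) - a i) z *
        ((W q a c i z + c i) / (1 + (c i : ℂ) * W q a c i z))) {z | z.im < 0} := by
      refine (ex_diff _).differentiableOn.mul (DifferentiableOn.div (ih.add_const _)
        ((differentiableOn_const _).add ((differentiableOn_const _).mul ih)) fun z hz => ?_)
      exact ne_zero (cW_le ha0 ha hc hc0 i z (le_of_lt hz))
    exact h1

theorem hol_log (S : Finset ℕ) :
    Hol (2 * ∑ i ∈ S, c i) (6 * Real.pi * q)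
      (fun z => ∑ i ∈ S, Complex.log (1 + (c i : ℂ) * W q a c i z)) where
  cont := by
    refine continuousOn_finsetSum _ fun i _ => ?_
    refine ContinuousOn.clog (continuousOn_const.add
      (continuousOn_const.mul (W_cont ha0 ha hc hc0 i))) fun z hz => ?_
    exact Or.inl (re_pos (cW_le ha0 ha hc hc0 i z hz))
  diff := by
    refine DifferentiableOn.fun_sum fun i _ => ?_
    refine DifferentiableOn.clog ((differentiableOn_const _).add
      ((differentiableOn_const _).mul (W_diff ha0 ha hc hc0 i))) fun z hz => ?_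
    exact Or.inl (re_pos (cW_le ha0 ha hc hc0 i z (le_of_lt hz)))
  bound := by
    intro z hz
    refine (norm_sum_le _ _).trans ?_
    rw [Finset.mul_sum, Finset.sum_mul]
    refine Finset.sum_le_sum fun i _ => ?_
    have h1 := Complex.norm_log_one_add_half_le_self (cW_le ha0 ha hc hc0 (q := q) i z hz)
    refine h1.trans ?_
    rw [norm_mul, Complex.norm_real, Real.norm_of_nonneg (hc i).1]
    have h2 := W_bound ha0 ha hc hc0 (q := q) i z hz
    have h3 : c i * ‖W q a c i z‖ ≤ c i * Real.exp (6 * Real.pi * q * z.im) :=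
      mul_le_mul_of_nonneg_left h2 (hc i).1
    have h4 : 0 ≤ c i * Real.exp (6 * Real.pi * q * z.im) :=
      mul_nonneg (hc i).1 (Real.exp_pos _).le
    nlinarith

end

theorem ww_eq (hPSI : StmtPSI) {q : ℕ} {a c : ℕ → ℝ} {c0 : ℝ} (hq : 1 ≤ q)
    (hc : ∀ i, 0 ≤ c i ∧ c i ≤ c0) (hc0 : c0 ≤ 1 / 10) (i : ℕ) (al : ℝ) (hal : 0 < al) :
    ww q a c i al = W q a c i al := by
  obtain ⟨C, -, hP⟩ := hPSI
  have hq0 : (0 : ℝ) < q := by exact_mod_cast hq
  induction i with
  | zero =>
    rw [W, ex_real]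
    unfold ww RR
    congr 1
    ring
  | succ i ih =>
    have h1 := (((hP q (c i) hq (hc i).1 ((hc i).2.trans hc0)).2
      (al * (RR q al a c i - a i))).2.2.2.2.2.2.2.2)
    have h2 : ww q a c (i + 1) al = ee (-(q * (al * (a (i + 1) - a i)))) *
        (ee (-eF ((c i : ℂ) * ww q a c i al)) * ww q a c i al) := by
      unfold ww
      rw [← ee_add, ← ee_add]
      congr 1
      rw [RR]
      field_simp
      ring
    rw [h2, W, ex_real, ← ih]
    congr 1

/-- the mean of a function of a complex variable -/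
noncomputable def TT (h : ℝ) (L : ℂ → ℂ) (z : ℂ) : ℂ := (∫ t in (0 : ℝ)..h, L (z + t)) / h

/-- iterated means of the real part -/
theorem Av_iterate_re {h : ℝ} {κ : ℝ} (hHO1 : StmtHO1) (hh : 0 < h) (hκ : 0 < κ) (n : ℕ) :
    ∀ (A : ℝ) (L : ℂ → ℂ), 0 ≤ A → Hol A κ L →
      Hol (A * (2 / (h * κ)) ^ n) κ ((TT h)^[n] L) ∧
      ∀ x : ℝ, (Av h)^[n] (fun al => (L (al : ℂ)).re) x = ((TT h)^[n] L (x : ℂ)).re := by
  induction n with
  | zero =>
    intro A L _ hL
    simpa using hL
  | succ n ih =>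
    intro A L hA hL
    have h1 : Hol (A * (2 / (h * κ))) κ (TT h L) := hHO1 A κ h L hA hκ hh hL
    have hA' : 0 ≤ A * (2 / (h * κ)) := by positivity
    obtain ⟨h2, h3⟩ := ih _ _ hA' h1
    rw [Function.iterate_succ_apply]
    refine ⟨?_, fun x => ?_⟩
    · have h4 : A * (2 / (h * κ)) ^ (n + 1) = A * (2 / (h * κ)) * (2 / (h * κ)) ^ n := by ring
      rw [h4]
      exact h2
    · rw [Function.iterate_succ_apply, ← h3 x]
      have h5 : Av h (fun al => (L (al : ℂ)).re) =
          fun al : ℝ => (TT h L (al : ℂ)).re := by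
        funext al
        unfold Av TT
        have hcont : Continuous (fun t : ℝ => L ((al : ℂ) + t)) := by
          have h6 : Continuous (fun t : ℝ => ((al : ℂ) + t)) := by fun_prop
          refine hL.cont.comp_continuous h6 fun t => ?_
          simp
        have h7 : (∫ t in (0 : ℝ)..h, L ((al : ℂ) + t)).re =
            ∫ t in (0 : ℝ)..h, (L ((al : ℂ) + t)).re := by
          have := Complex.reCLM.intervalIntegral_comp_comm (a := 0) (b := h)
            (hcont.intervalIntegrable (μ := volume) 0 h)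
          simpa using this.symm
        rw [Complex.div_ofReal_re, h7]
        congr 1
        refine intervalIntegral.integral_congr fun t _ => ?_
        push_cast
        rfl
      rw [h5]

theorem Av_congr {h : ℝ} (hh : 0 < h) (n : ℕ) : ∀ (f g : ℝ → ℝ), (∀ x > 0, f x = g x) →
    ∀ x > 0, (Av h)^[n] f x = (Av h)^[n] g x := by
  induction n with
  | zero => intro f g hfg x hx; exact hfg x hx
  | succ n ih =>
    intro f g hfg x hx
    rw [Function.iterate_succ_apply, Function.iterate_succ_apply]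
    refine ih _ _ (fun y hy => ?_) x hx
    unfold Av
    congr 1
    refine intervalIntegral.integral_congr fun t ht => ?_
    rw [uIcc_of_le hh.le] at ht
    exact hfg _ (by linarith [ht.1])

theorem gHO2 : StmtPSI → StmtHO1 → StmtHO2 := by
  intro hPSI hHO1 q a c c0 hq ha0 ha hc hc0
  have hww := fun i al hal => ww_eq hPSI (a := a) hq hc hc0 i al hal
  refine ⟨fun i => ?_, fun i al _ => norm_ee _, fun h n S hh => ?_⟩
  · have h1 : ContinuousOn (fun al : ℝ => W q a c i (al : ℂ)) (Ioi 0) := by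
      refine (W_cont ha0 ha hc hc0 i).comp Complex.continuous_ofReal.continuousOn fun x _ => ?_
      simp
    exact h1.congr fun al hal => hww i al hal
  · have hq0 : (0 : ℝ) < q := by exact_mod_cast hq
    have hκ : 0 < 6 * Real.pi * q := by positivity
    have hA : 0 ≤ 2 * ∑ i ∈ S, c i :=
      mul_nonneg (by norm_num) (Finset.sum_nonneg fun i _ => (hc i).1)
    obtain ⟨h1, h2⟩ := Av_iterate_re hHO1 hh hκ n _ _ hA (hol_log (q := q) ha0 ha hc hc0 S)
    have h3 : (Av h)^[n] (fun al => ∑ i ∈ S, Real.log ‖1 + (c i : ℂ) * ww q a c i al‖) 1 =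
        (Av h)^[n] (fun al : ℝ =>
          (∑ i ∈ S, Complex.log (1 + (c i : ℂ) * W q a c i (al : ℂ))).re) 1 := by
      refine Av_congr hh n _ _ (fun x hx => ?_) 1 one_pos
      rw [Complex.re_sum]
      refine Finset.sum_congr rfl fun i _ => ?_
      rw [Complex.log_re, hww i x hx]
    rw [h3, h2 1]
    refine (Complex.abs_re_le_norm _).trans ?_
    refine (h1.bound _ (by simp)).trans ?_
    have h4 : Real.exp (6 * Real.pi * q * ((1 : ℝ) : ℂ).im) = 1 := by simp
    rw [h4, mul_one]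
    refine mul_le_mul_of_nonneg_left ?_ hA
    refine pow_le_pow_left₀ (by positivity) ?_ n
    rw [div_le_div_iff₀ (by positivity) (by positivity)]
    have h5 := Real.pi_gt_three
    have h6 : 0 < h * q := by positivity
    nlinarith

end Pool.Agent.Helper26.TOF
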